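import Mathlib
import Pool.Agent.H137R2.Weak.Final
import Pool.Agent.H112R2.Cover

set_option autoImplicit false
open scoped Pointwise

namespace H375.Tor

theorem closure_card {G : Type*} [AddCommGroup G] [DecidableEq G] (m : ℕ) (hm : 0 < m)
    (htor : ∀ x : G, m • x = 0) (S : Finset G) :
    Finite (AddSubgroup.closure (S : Set G)) ∧
      Nat.card (AddSubgroup.closure (S : Set G)) ≤ m ^ S.card := by
  induction S using Finset.induction_on with
  | empty =>
    rw [Finset.coe_empty, AddSubgroup.closure_empty]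
    refine ⟨inferInstance, ?_⟩
    simp
  | insert g S hg ih =>
    obtain ⟨hfin, hcard⟩ := ih
    have heq : AddSubgroup.closure ((insert g S : Finset G) : Set G) =
        AddSubgroup.closure (S : Set G) ⊔ AddSubgroup.zmultiples g := by
      rw [Finset.coe_insert, Set.insert_eq, AddSubgroup.closure_union, sup_comm,
        AddSubgroup.zmultiples_eq_closure]
    have h1 : m • g ∈ AddSubgroup.closure (S : Set G) := by
      rw [htor g]; exact AddSubgroup.zero_mem _
    have h2 := H112.cover_sup_card (AddSubgroup.closure (S : Set G)) g hm h1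
    have hfin2 : Finite (AddSubgroup.zmultiples g) := by
      have : IsOfFinAddOrder g := isOfFinAddOrder_iff_nsmul_eq_zero.2 ⟨m, hm, htor g⟩
      exact (finite_zmultiples).2 this
    rw [heq]
    constructor
    · have hset : ((AddSubgroup.closure (S : Set G) ⊔ AddSubgroup.zmultiples g : AddSubgroup G) :
          Set G) = (AddSubgroup.closure (S : Set G) : Set G) + (AddSubgroup.zmultiples g : Set G) :=
        AddSubgroup.add_normal _ _
      have : ((AddSubgroup.closure (S : Set G) : Set G) +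
          (AddSubgroup.zmultiples g : Set G)).Finite :=
        Set.Finite.add (Set.toFinite _) (Set.toFinite _)
      rw [← hset] at this
      exact this.to_subtype
    · rw [Finset.card_insert_of_notMem hg, pow_succ]
      calc _ ≤ m * Nat.card (AddSubgroup.closure (S : Set G)) := h2
        _ ≤ m * m ^ S.card := Nat.mul_le_mul_left _ hcard
        _ = _ := by ring

open scoped Classical in
theorem upper' {G : Type*} [AddCommGroup G] (k : ℕ)
    (htor : ∀ x : G, (2 ^ k) • x = 0) (K : ℝ) (A : Finset G) (hA : A.Nonempty)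
    (hK : ((A + A).card : ℝ) ≤ K * (A.card : ℝ)) :
    ∃ (H : AddSubgroup G) (T : Finset G), Finite H ∧ Nat.card H ≤ A.card ∧
      (T.card : ℝ) ≤ (2 * K) ^ (333 * (k + 1)) ∧ ∀ a ∈ A, ∃ t ∈ T, a - t ∈ H := by
  have hK1 : 1 ≤ K := by
    have hc : (0 : ℝ) < A.card := by exact_mod_cast hA.card_pos
    have h1 : (A.card : ℝ) ≤ (A + A).card := by
      exact_mod_cast Finset.card_le_card_add_right hA
    nlinarith
  obtain ⟨P, S, T, hP, hPc, -, hS, -, hT, hcov⟩ := H137.Weak.weak_marton hA hK
  obtain ⟨hfin, hcard⟩ := closure_card (2 ^ k) (by positivity) htor S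
  have hfs : ((AddSubgroup.closure (S : Set G) : AddSubgroup G) : Set G).Finite := Set.toFinite _
  refine ⟨P, T + hfs.toFinset, hP, hPc, ?_, ?_⟩
  · have h1 : ((T + hfs.toFinset).card : ℝ) ≤ T.card * hfs.toFinset.card := by
      exact_mod_cast Finset.card_add_le
    have h2 : hfs.toFinset.card = Nat.card (AddSubgroup.closure (S : Set G)) := by
      rw [← Set.ncard_eq_toFinset_card _ hfs]; rfl
    have h3 : ((2 : ℝ) ^ k) ^ S.card ≤ 2 ^ k * K ^ (333 * k) := by
      have hlog2 : Real.log 2 ≤ 0.6931471808 := Real.log_two_lt_d9.le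
      have hlog2' : 0 ≤ Real.log 2 := Real.log_nonneg (by norm_num)
      have hlogK : 0 ≤ Real.log K := Real.log_nonneg hK1
      have e1 : ((2 : ℝ) ^ k) ^ S.card = Real.exp (k * (S.card * Real.log 2)) := by
        rw [← pow_mul, ← Real.rpow_natCast, Real.rpow_def_of_pos (by norm_num)]
        congr 1; push_cast; ring
      have e2 : (2 : ℝ) ^ k * K ^ (333 * k) = Real.exp (k * (Real.log 2 + 333 * Real.log K)) := by
        rw [← Real.rpow_natCast K, Real.rpow_def_of_pos (by linarith), ← Real.rpow_natCast 2,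
          Real.rpow_def_of_pos (by norm_num), ← Real.exp_add]
        congr 1; push_cast; ring
      rw [e1, e2]
      apply Real.exp_le_exp.2
      apply mul_le_mul_of_nonneg_left _ (Nat.cast_nonneg k)
      calc (S.card : ℝ) * Real.log 2 ≤ (480 * Real.log K + 1) * Real.log 2 := by gcongr
        _ = Real.log 2 + 480 * Real.log 2 * Real.log K := by ring
        _ ≤ Real.log 2 + 333 * Real.log K := by nlinarith
    calc ((T + hfs.toFinset).card : ℝ) ≤ T.card * hfs.toFinset.card := h1
      _ = T.card * (Nat.card (AddSubgroup.closure (S : Set G)) : ℝ) := by rw [h2]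
      _ ≤ K ^ 185 * ((2 : ℝ) ^ k) ^ S.card := by
        apply mul_le_mul hT _ (by positivity) (by positivity)
        exact_mod_cast hcard
      _ ≤ K ^ 185 * (2 ^ k * K ^ (333 * k)) := by gcongr
      _ = 2 ^ k * K ^ (333 * k + 185) := by rw [pow_add]; ring
      _ ≤ 2 ^ (333 * (k + 1)) * K ^ (333 * (k + 1)) := by
        gcongr
        · norm_num
        · omega
        · omega
      _ = _ := by rw [mul_pow]
  · intro a ha
    obtain ⟨t, ht, o, ⟨m, hm, hmo⟩, hmem⟩ := hcov a ha
    have ho : o = 0 := by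
      have hcop : Nat.Coprime m (2 ^ k) := by
        apply Nat.Coprime.pow_right
        exact hm.coprime_two_right
      have h3 : addOrderOf o ∣ m := addOrderOf_dvd_of_nsmul_eq_zero hmo
      have h4 : addOrderOf o ∣ 2 ^ k := addOrderOf_dvd_of_nsmul_eq_zero (htor o)
      have h5 : addOrderOf o ∣ 1 := by
        rw [← hcop]
        exact Nat.dvd_gcd h3 h4
      exact AddMonoid.addOrderOf_eq_one_iff.1 (Nat.dvd_one.1 h5)
    rw [ho, sub_zero] at hmem
    obtain ⟨p, hp, c, hc, hpc⟩ := AddSubgroup.mem_sup.1 hmem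
    refine ⟨t + c, Finset.add_mem_add ht (hfs.mem_toFinset.2 hc), ?_⟩
    have : a - (t + c) = p := by
      rw [← sub_sub, ← hpc]; abel
    rw [this]; exact hp

theorem upper {G : Type*} [AddCommGroup G] [d : DecidableEq G] (k : ℕ)
    (htor : ∀ x : G, (2 ^ k) • x = 0) (K : ℝ) (A : Finset G) (hA : A.Nonempty)
    (hK : ((A + A).card : ℝ) ≤ K * (A.card : ℝ)) :
    ∃ (H : AddSubgroup G) (T : Finset G), Finite H ∧ Nat.card H ≤ A.card ∧
      (T.card : ℝ) ≤ (2 * K) ^ (333 * (k + 1)) ∧ ∀ a ∈ A, ∃ t ∈ T, a - t ∈ H := by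
  have hd : d = (fun a b => Classical.propDecidable (a = b)) := Subsingleton.elim _ _
  subst hd
  exact upper' k htor K A hA hK

theorem lower (k : ℕ) : ∃ A : Finset (ZMod (2 ^ k)), A.Nonempty ∧
    (A + A).card ≤ 2 * A.card ∧
    ∀ (H : AddSubgroup (ZMod (2 ^ k))) (T : Finset (ZMod (2 ^ k))), Nat.card H ≤ A.card →
      (∀ a ∈ A, ∃ t ∈ T, a - t ∈ H) → 2 ^ (k / 2) ≤ T.card := by
  classical
  have : NeZero ((2 : ℕ) ^ k) := ⟨by positivity⟩
  have hjk : k / 2 ≤ k := Nat.div_le_self _ _
  set j := k / 2 with hj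
  have hjk2 : 2 * j ≤ k := by omega
  let A : Finset (ZMod (2 ^ k)) := (Finset.range (2 ^ j)).image (fun n : ℕ => (n : ZMod (2 ^ k)))
  have hinj : Set.InjOn (fun n : ℕ => (n : ZMod (2 ^ k))) (Finset.range (2 ^ j) : Finset ℕ) := by
    intro x hx y hy hxy
    have hx' : x < 2 ^ k := lt_of_lt_of_le (Finset.mem_range.1 hx) (Nat.pow_le_pow_right (by norm_num) hjk)
    have hy' : y < 2 ^ k := lt_of_lt_of_le (Finset.mem_range.1 hy) (Nat.pow_le_pow_right (by norm_num) hjk)
    have h := (ZMod.natCast_eq_natCast_iff' x y (2 ^ k)).1 hxy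
    rwa [Nat.mod_eq_of_lt hx', Nat.mod_eq_of_lt hy'] at h
  have hcard : A.card = 2 ^ j := by
    rw [Finset.card_image_of_injOn hinj, Finset.card_range]
  have hpos : 0 < 2 ^ j := by positivity
  refine ⟨A, ?_, ?_, ?_⟩
  · exact ⟨((0 : ℕ) : ZMod (2 ^ k)), Finset.mem_image.2 ⟨0, Finset.mem_range.2 hpos, rfl⟩⟩
  · have hsub : A + A ⊆ (Finset.range (2 * 2 ^ j)).image (fun n : ℕ => (n : ZMod (2 ^ k))) := by
      intro z hz
      obtain ⟨x, hx, y, hy, rfl⟩ := Finset.mem_add.1 hz
      obtain ⟨m, hm, rfl⟩ := Finset.mem_image.1 hx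
      obtain ⟨n, hn, rfl⟩ := Finset.mem_image.1 hy
      rw [Finset.mem_range] at hm hn
      refine Finset.mem_image.2 ⟨m + n, Finset.mem_range.2 (by omega), by push_cast; ring⟩
    calc (A + A).card ≤ _ := Finset.card_le_card hsub
      _ ≤ (Finset.range (2 * 2 ^ j)).card := Finset.card_image_le
      _ = 2 * A.card := by rw [Finset.card_range, hcard]
  · intro H T hH hcov
    rw [hcard] at hH
    have hHdvd : Nat.card H ∣ 2 ^ k := by
      have := AddSubgroup.card_addSubgroup_dvd_card H
      rwa [Nat.card_zmod] at this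
    obtain ⟨i, hik, hHi⟩ := (Nat.dvd_prime_pow Nat.prime_two).1 hHdvd
    have hij : i ≤ j := by
      rw [hHi] at hH
      exact (Nat.pow_le_pow_iff_right (by norm_num)).1 hH
    have hkill : ∀ h ∈ H, ((2 ^ j : ℕ) : ZMod (2 ^ k)) * h = 0 := by
      intro h hh
      have h1 : Nat.card H • (⟨h, hh⟩ : H) = 0 := card_nsmul_eq_zero'
      have h2 : Nat.card H • h = 0 := by
        have h0 := congrArg Subtype.val h1
        rw [AddSubgroup.coe_nsmul, AddSubgroup.coe_zero] at h0
        exact h0
      rw [hHi, nsmul_eq_mul] at h2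
      have h3 : (2 : ℕ) ^ j = 2 ^ (j - i) * 2 ^ i := by
        rw [← pow_add]; congr 1; omega
      rw [h3, Nat.cast_mul, mul_assoc, h2, mul_zero]
    choose! t ht hta using hcov
    have hinj2 : Set.InjOn t (A : Set (ZMod (2 ^ k))) := by
      intro a ha b hb hab
      obtain ⟨m, hm, rfl⟩ := Finset.mem_image.1 ha
      obtain ⟨n, hn, rfl⟩ := Finset.mem_image.1 hb
      rw [Finset.mem_range] at hm hn
      have h1 : ((m : ZMod (2 ^ k)) - (n : ZMod (2 ^ k))) ∈ H := by
        have h2 := H.sub_mem (hta _ ha) (hta _ hb)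
        rw [hab] at h2
        simpa using h2
      have h3 := hkill _ h1
      have h4 : (((2 ^ j * m : ℕ)) : ZMod (2 ^ k)) = ((2 ^ j * n : ℕ) : ZMod (2 ^ k)) := by
        push_cast at h3 ⊢
        rw [mul_sub] at h3
        exact sub_eq_zero.1 h3
      have hb1 : 2 ^ j * 2 ^ j ≤ 2 ^ k := by
        rw [← pow_add]; exact Nat.pow_le_pow_right (by norm_num) (by omega)
      have hx' : 2 ^ j * m < 2 ^ k :=
        lt_of_lt_of_le (Nat.mul_lt_mul_of_pos_left hm hpos) hb1
      have hy' : 2 ^ j * n < 2 ^ k :=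
        lt_of_lt_of_le (Nat.mul_lt_mul_of_pos_left hn hpos) hb1
      have h := (ZMod.natCast_eq_natCast_iff' _ _ (2 ^ k)).1 h4
      rw [Nat.mod_eq_of_lt hx', Nat.mod_eq_of_lt hy'] at h
      have := Nat.eq_of_mul_eq_mul_left hpos h
      rw [this]
    have : A.card ≤ T.card := Finset.card_le_card_of_injOn t (fun a ha => ht a ha) hinj2
    rw [hcard] at this
    exact this

end H375.Tor
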